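import Pool.Agent.H82.BO.Targets
import Pool.Agent.H13.FLD.HL0

/-!
Row YHV of bopt_modules (MP_c62aed_lc): few clauses are violated by two assignments which are far
from each other.
-/

set_option autoImplicit false

namespace Pool.Agent.H85.BOP

open Finset Pool.Agent.H82.BO
open Pool.Agent.H15.FLC (Half Violates InsC CovC KerC ErrC BRC ERC KRC BadC)
open Pool.Agent.H15.FLD (H0 tau0 Par0 T_EB0 T_HX0 T_NM0)

theorem pf_YHV : T_YHV := by
  classical
  intro n l η y y' h0 h1 hd
  have hcard : ((univ.filter fun i => y i = y' i).card : ℝ) ≤ (1 - η) * n := by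
    have h2 : (univ.filter fun i => y i = y' i).card + hammingDist y y' = n := by
      have h3 := Finset.card_filter_add_card_filter_not (s := (univ : Finset (Fin n)))
        (fun i => y i = y' i)
      rw [Finset.card_univ, Fintype.card_fin] at h3
      exact h3
    have h3 : ((univ.filter fun i => y i = y' i).card : ℝ) + hammingDist y y' = n := by
      exact_mod_cast h2
    linarith
  have h4 := Pool.Agent.H13.FLD.pf_HL0 (1 - η) n l (univ.filter fun i => y i = y' i) y
    (by linarith) hcard
  have h5 : Nat.card {c : Half n l // Violates c y ∧ Violates c y'} ≤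
      Nat.card {c : Half n l // c.1.1 ⊆ (univ.filter fun i => y i = y' i) ∧ Violates c y} := by
    refine Nat.card_mono (s := {c : Half n l | Violates c y ∧ Violates c y'})
      (t := {c : Half n l | c.1.1 ⊆ (univ.filter fun i => y i = y' i) ∧ Violates c y})
      (Set.toFinite _) ?_
    rintro c ⟨hc, hc'⟩
    refine ⟨fun i hi => ?_, hc⟩
    have e1 := hc i hi
    have e2 := hc' i hi
    rw [mem_filter]
    refine ⟨mem_univ _, ?_⟩
    revert e1 e2
    cases y i <;> cases y' i <;> cases c.2 i <;> simp
  calc (Nat.card {c : Half n l // Violates c y ∧ Violates c y'} : ℝ)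
      ≤ (Nat.card {c : Half n l // c.1.1 ⊆ (univ.filter fun i => y i = y' i) ∧
          Violates c y} : ℝ) := by exact_mod_cast h5
    _ ≤ ((1 - η) / 2) ^ l * Nat.card (Half n l) := h4
    _ = _ := by rw [div_pow]

end Pool.Agent.H85.BOP
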