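import Pool.Agent.H82.BO.Targets
import Pool.Agent.H10.FLC.CHC

/-!
Row YPA of bopt_modules (MP_c62aed_lc): given clauses are violated by given assignments which are
far from each other.
-/

set_option autoImplicit false

namespace Pool.Agent.H85.BOP

open Finset Pool.Agent.H82.BO
open Pool.Agent.H15.FLC (Half Violates InsC CovC KerC ErrC BRC ERC KRC BadC)
open Pool.Agent.H15.FLD (H0 tau0 Par0 T_EB0 T_HX0 T_NM0)

private lemma prod_wt {μ : ℕ} (s : Finset (Fin μ)) (N c : ℝ) :
    ∏ u : Fin μ, (N * if u ∈ s then c else 1) = N ^ μ * c ^ s.card := by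
  rw [Finset.prod_mul_distrib, Finset.prod_const, Finset.card_univ, Fintype.card_fin,
    Finset.prod_ite_mem, Finset.univ_inter, Finset.prod_const]

theorem pf_YPA (hYHV : T_YHV) : T_YPA := by
  classical
  intro n l μ z η y j h0 h1 hd
  obtain ⟨N, hN⟩ : ∃ N : ℝ, N = (Nat.card (Half n l) : ℝ) := ⟨_, rfl⟩
  have hN0 : 0 ≤ N := by rw [hN]; exact Nat.cast_nonneg _
  obtain ⟨S, hS⟩ : ∃ S : Fin μ → Finset (Half n l), S = fun u =>
    univ.filter fun c => ∀ a, j a = u → Violates c (y a) := ⟨_, rfl⟩
  have hmS : ∀ u c, c ∈ S u ↔ ∀ a, j a = u → Violates c (y a) := by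
    intro u c
    rw [hS]
    simp
  have hcard : (Nat.card {G : Fin μ → Half n l // ∀ a, Violates (G (j a)) (y a)} : ℝ) =
      ∏ u, ((S u).card : ℝ) := by
    rw [Nat.card_eq_fintype_card, Fintype.card_subtype]
    have h2 : (univ.filter fun G : Fin μ → Half n l => ∀ a, Violates (G (j a)) (y a)) =
        Fintype.piFinset S := by
      ext G
      rw [mem_filter, Fintype.mem_piFinset]
      constructor
      · rintro ⟨-, h⟩ u
        rw [hmS]
        rintro a rfl
        exact h a
      · intro h
        exact ⟨mem_univ _, fun a => (hmS _ _).1 (h (j a)) a rfl⟩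
    rw [h2, Fintype.card_piFinset, Nat.cast_prod]
  have hSN : ∀ u, ((S u).card : ℝ) ≤ N := fun u => by
    rw [hN, Nat.card_eq_fintype_card]
    exact_mod_cast Finset.card_le_univ _
  have hle : ∀ u, ((S u).card : ℝ) ≤ N * (if u ∈ univ.image j then 1 / 2 ^ l else 1) := by
    intro u
    split_ifs with hu
    · obtain ⟨a, -, rfl⟩ := mem_image.1 hu
      have h2 := Pool.Agent.H10.FLC.chc_half (k := l) (y a)
      have h3 : (S (j a)).card ≤ (univ.filter fun c : Half n l => Violates c (y a)).card :=
        card_le_card fun c hc => mem_filter.2 ⟨mem_univ _, (hmS _ _).1 hc a rfl⟩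
      have h4 : (((univ.filter fun c : Half n l => Violates c (y a)).card : ℕ) : ℝ) * 2 ^ l =
          N := by
        rw [hN, Nat.card_eq_fintype_card, ← h2]
        push_cast
        rfl
      rw [mul_one_div, le_div_iff₀ (by positivity), ← h4]
      exact mul_le_mul_of_nonneg_right (by exact_mod_cast h3) (by positivity)
    · rw [mul_one]
      exact hSN u
  have hNc : (Nat.card (Fin μ → Half n l) : ℝ) = N ^ μ := by
    rw [hN, Nat.card_fun, Nat.card_eq_fintype_card (α := Fin μ), Fintype.card_fin]
    push_cast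
    rfl
  have hP := prod_wt (univ.image j) N (1 / 2 ^ l)
  rw [hcard, hNc]
  by_cases hinj : Function.Injective j
  · rw [if_pos hinj]
    calc ∏ u, ((S u).card : ℝ) ≤ ∏ u : Fin μ, (N * if u ∈ univ.image j then 1 / 2 ^ l else 1) :=
          Finset.prod_le_prod (fun u _ => Nat.cast_nonneg _) fun u _ => hle u
      _ = _ := by
          rw [hP, one_div_pow]
          ring
  · rw [if_neg hinj]
    unfold Function.Injective at hinj
    push Not at hinj
    obtain ⟨a, b, hab, hne⟩ := hinj
    have hu0 : j a ∈ univ.image j := mem_image_of_mem _ (mem_univ _)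
    have h5 : ((S (j a)).card : ℝ) ≤
        (1 - η) ^ l * (N * (if j a ∈ univ.image j then 1 / 2 ^ l else 1)) := by
      rw [if_pos hu0]
      have h6 := hYHV n l η (y a) (y b) h0 h1 (hd a b hne)
      have h7 : (S (j a)).card ≤
          Nat.card {c : Half n l // Violates c (y a) ∧ Violates c (y b)} := by
        rw [Nat.card_eq_fintype_card, Fintype.card_subtype]
        refine card_le_card fun c hc => mem_filter.2 ⟨mem_univ _, ?_⟩
        exact ⟨(hmS _ _).1 hc a rfl, (hmS _ _).1 hc b hab.symm⟩
      have h8 : ((S (j a)).card : ℝ) ≤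
          (Nat.card {c : Half n l // Violates c (y a) ∧ Violates c (y b)} : ℝ) := by
        exact_mod_cast h7
      refine h8.trans (h6.trans (le_of_eq ?_))
      rw [hN]
      ring
    calc ∏ u, ((S u).card : ℝ)
        = ((S (j a)).card : ℝ) * ∏ u ∈ univ.erase (j a), ((S u).card : ℝ) :=
          (Finset.mul_prod_erase univ (fun u => ((S u).card : ℝ)) (mem_univ _)).symm
      _ ≤ ((1 - η) ^ l * (N * (if j a ∈ univ.image j then 1 / 2 ^ l else 1))) *
          ∏ u ∈ univ.erase (j a), (N * if u ∈ univ.image j then 1 / 2 ^ l else 1) := by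
          refine mul_le_mul h5 (Finset.prod_le_prod (fun u _ => Nat.cast_nonneg _)
            fun u _ => hle u) (Finset.prod_nonneg fun u _ => Nat.cast_nonneg _) ?_
          have : 0 ≤ 1 - η := by linarith
          rw [if_pos hu0]
          positivity
      _ = (1 - η) ^ l * ∏ u : Fin μ, (N * if u ∈ univ.image j then 1 / 2 ^ l else 1) := by
          rw [mul_assoc, Finset.mul_prod_erase univ
            (fun u => N * if u ∈ univ.image j then (1 : ℝ) / 2 ^ l else 1) (mem_univ _)]
      _ = _ := by
          rw [hP, one_div_pow]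
          ring

end Pool.Agent.H85.BOP
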